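import Pool.Agent.Helper77.MT.Zar

/-!
KM, block B5: a group with Zariski closure containing `SL_n` has no character which is a product of `d` eigenvalues,
`0 < d < n`.
-/

set_option autoImplicit false

open Matrix H77MT

namespace Pool.Agent.Helper53.KM

/-- the tensor power of a matrix -/
def tp {R : Type*} [CommRing R] {n : Type*} (d : ℕ) (M : Matrix n n R) : Matrix (Fin d → n) (Fin d → n) R :=
  Matrix.of fun x y => ∏ i, M (x i) (y i)

theorem tp_smul {R : Type*} [CommRing R] {n : Type*} (d : ℕ) (c : R) (M : Matrix n n R) :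
    tp d (c • M) = c ^ d • tp d M := by
  ext x y
  simp [tp, Finset.prod_mul_distrib]

theorem tp_map {R S : Type*} [CommRing R] [CommRing S] {n : Type*} (d : ℕ) (φ : R →+* S) (M : Matrix n n R) :
    (tp d M).map φ = tp d (M.map φ) := by
  ext x y
  simp [tp, map_prod]

theorem tp_mulVec {R : Type*} [CommRing R] {n : Type*} [Fintype n] {d : ℕ} {M : Matrix n n R} {v : Fin d → n → R}
    {y : Fin d → R} (h : ∀ i, M *ᵥ v i = y i • v i) :
    tp d M *ᵥ (fun x => ∏ i, v i (x i)) = (∏ i, y i) • (fun x => ∏ i, v i (x i)) := by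
  classical
  funext x
  show ∑ z : Fin d → n, (∏ i, M (x i) (z i)) * ∏ i, v i (z i) = (∏ i, y i) * ∏ i, v i (x i)
  have h1 : ∀ i, ∑ j, M (x i) j * v i j = y i * v i (x i) := fun i => congrFun (h i) (x i)
  rw [← Finset.prod_mul_distrib, ← Finset.prod_congr rfl fun i _ => h1 i, Finset.prod_univ_sum,
    Fintype.piFinset_univ]
  exact Finset.sum_congr rfl fun z _ => Finset.prod_mul_distrib.symm

/-- the polynomial -/
def Qf {R : Type*} [CommRing R] {n : Type*} [Fintype n] [DecidableEq n] (d : ℕ) (a b : Matrix n n R) : R :=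
  ((a.det * b.det) ^ d • (1 : Matrix (Fin d → n) (Fin d → n) R) -
    tp d (a * b * a.adjugate * b.adjugate)).det

theorem map_Qf {R S : Type*} [CommRing R] [CommRing S] {n : Type*} [Fintype n] [DecidableEq n] (d : ℕ) (φ : R →+* S)
    (a b : Matrix n n R) : φ (Qf d a b) = Qf d (a.map φ) (b.map φ) := by
  have h1 : ∀ M : Matrix n n R, φ M.det = (M.map φ).det := fun M => RingHom.map_det φ M
  have h2 : ∀ M : Matrix n n R, M.adjugate.map φ = (M.map φ).adjugate := fun M => RingHom.map_adjugate φ M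
  unfold Qf
  rw [RingHom.map_det, RingHom.mapMatrix_apply]
  congr 1
  have h3 : (tp d (a * b * a.adjugate * b.adjugate)).map φ =
      tp d (a.map φ * b.map φ * (a.map φ).adjugate * (b.map φ).adjugate) := by
    rw [tp_map, Matrix.map_mul, Matrix.map_mul, Matrix.map_mul, h2, h2]
  rw [← h3, ← h1, ← h1]
  ext x y
  simp [Matrix.one_apply, apply_ite φ]

variable {K : Type*} [Field K] {n : Type*} [Fintype n] [DecidableEq n]

/-- the generic matrix -/
noncomputable def gen (K n : Type*) [Field K] : Matrix n n (MvPolynomial (n × n) K) :=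
  Matrix.of fun i j => MvPolynomial.X (i, j)

theorem gen_map (x : Matrix n n K) : (gen K n).map (ev x : MvPolynomial (n × n) K →+* K) = x := by
  ext i j
  simp [gen]

omit [Fintype n] [DecidableEq n] in
theorem C_map (x b : Matrix n n K) : (b.map (MvPolynomial.C : K →+* MvPolynomial (n × n) K)).map
    (ev x : MvPolynomial (n × n) K →+* K) = b := by
  ext i j
  simp

theorem zcl_Q1 {S : Set (Matrix n n K)} {d : ℕ} {b : Matrix n n K} (h : ∀ s ∈ S, Qf d s b = 0) {x : Matrix n n K}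
    (hx : x ∈ zcl S) : Qf d x b = 0 := by
  have h1 : ∀ y : Matrix n n K, ev y (Qf d (gen K n) (b.map (MvPolynomial.C : K →+* MvPolynomial (n × n) K))) =
      Qf d y b := by
    intro y
    have := map_Qf d (ev y : MvPolynomial (n × n) K →+* K) (gen K n)
      (b.map (MvPolynomial.C : K →+* MvPolynomial (n × n) K))
    rw [gen_map, C_map] at this
    exact this
  rw [← h1]
  exact hx _ fun s hs => by rw [h1]; exact h s hs

theorem zcl_Q2 {S : Set (Matrix n n K)} {d : ℕ} {a : Matrix n n K} (h : ∀ s ∈ S, Qf d a s = 0) {x : Matrix n n K}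
    (hx : x ∈ zcl S) : Qf d a x = 0 := by
  have h1 : ∀ y : Matrix n n K, ev y (Qf d (a.map (MvPolynomial.C : K →+* MvPolynomial (n × n) K)) (gen K n)) =
      Qf d a y := by
    intro y
    have := map_Qf d (ev y : MvPolynomial (n × n) K →+* K)
      (a.map (MvPolynomial.C : K →+* MvPolynomial (n × n) K)) (gen K n)
    rw [gen_map, C_map] at this
    exact this
  rw [← h1]
  exact hx _ fun s hs => by rw [h1]; exact h s hs

/-- a product of eigenvalues equal to one -/
theorem det_tp {M : Matrix n n K} {d : ℕ} {y : Fin d → K} (hy : ∀ i, M.charpoly.IsRoot (y i)) (h1 : ∏ i, y i = 1) :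
    (1 - tp d M).det = 0 := by
  have hv : ∀ i, ∃ v : n → K, v ≠ 0 ∧ M *ᵥ v = y i • v := by
    intro i
    have h2 : Module.End.HasEigenvalue (Matrix.toLin' M) (y i) := by
      rw [Module.End.hasEigenvalue_iff_isRoot_charpoly, Matrix.charpoly_toLin']
      exact hy i
    obtain ⟨v, hv⟩ := h2.exists_hasEigenvector
    refine ⟨v, hv.2, ?_⟩
    have h3 := hv.apply_eq_smul
    rwa [Matrix.toLin'_apply] at h3
  choose v hv0 hv using hv
  have h4 := tp_mulVec (d := d) (M := M) (v := v) (y := y) hv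
  rw [h1, one_smul] at h4
  rw [← Matrix.exists_mulVec_eq_zero_iff]
  refine ⟨fun x => ∏ i, v i (x i), ?_, ?_⟩
  · have h5 : ∀ i, ∃ j, v i j ≠ 0 := fun i => Function.ne_iff.1 (hv0 i)
    choose x hx using h5
    intro h6
    exact (Finset.prod_ne_zero_iff.2 fun i _ => hx i) (congrFun h6 x)
  · rw [Matrix.sub_mulVec, Matrix.one_mulVec, h4, sub_self]

theorem Q_comm {a b a' b' : Matrix n n K} (ha : a * a' = 1) (hb : b * b' = 1) {d : ℕ} {y : Fin d → K}
    (hy : ∀ i, (a * b * a' * b').charpoly.IsRoot (y i)) (h1 : ∏ i, y i = 1) : Qf d a b = 0 := by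
  have e : ∀ c c' : Matrix n n K, c * c' = 1 → c.adjugate = c.det • c' := by
    intro c c' h
    calc c.adjugate = c.adjugate * (c * c') := by rw [h, Matrix.mul_one]
      _ = (c.adjugate * c) * c' := by rw [Matrix.mul_assoc]
      _ = c.det • c' := by rw [Matrix.adjugate_mul, Matrix.smul_mul, Matrix.one_mul]
  have h2 : a * b * a.adjugate * b.adjugate = (a.det * b.det) • (a * b * a' * b') := by
    rw [e a a' ha, e b b' hb, Matrix.mul_smul, Matrix.mul_smul, Matrix.smul_mul, smul_smul, mul_comm b.det]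
  unfold Qf
  rw [h2, tp_smul, ← smul_sub, Matrix.det_smul, det_tp hy h1, mul_zero]

/-- the value at a pair of matrices of determinant one -/
theorem Q_diag {a b : Matrix n n K} {t : n → K} (ha : a.det = 1) (hb : b.det = 1) (h : a * b = Matrix.diagonal t * b * a)
    {d : ℕ} (hQ : Qf d a b = 0) : ∃ x : Fin d → n, ∏ i, t (x i) = 1 := by
  have h1 : a * b * a.adjugate * b.adjugate = Matrix.diagonal t := by
    have h3 : a * b * a.adjugate = Matrix.diagonal t * b := by
      rw [h, Matrix.mul_assoc (Matrix.diagonal t * b), Matrix.mul_adjugate, ha, one_smul, Matrix.mul_one]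
    rw [h3, Matrix.mul_assoc, Matrix.mul_adjugate, hb, one_smul, Matrix.mul_one]
  have h2 : tp d (Matrix.diagonal t) = Matrix.diagonal fun x : Fin d → n => ∏ i, t (x i) := by
    ext x y
    by_cases hxy : x = y
    · subst hxy
      simp [tp]
    · rw [Matrix.diagonal_apply_ne _ hxy]
      obtain ⟨i, hi⟩ := Function.ne_iff.1 hxy
      exact Finset.prod_eq_zero (Finset.mem_univ i) (Matrix.diagonal_apply_ne _ hi)
  unfold Qf at hQ
  rw [h1, h2, ha, hb, mul_one, one_pow, one_smul, ← Matrix.diagonal_one, Matrix.diagonal_sub, Matrix.det_diagonal,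
    Finset.prod_eq_zero_iff] at hQ
  obtain ⟨x, -, hx⟩ := hQ
  exact ⟨x, (sub_eq_zero.1 hx).symm⟩

/-- powers of two -/
theorem zpow_two_eq [CharZero K] {m : ℤ} (h : (2 : K) ^ m = 1) : m = 0 := by
  have h1 : (((2 : ℚ) ^ m : ℚ) : K) = ((1 : ℚ) : K) := by
    push_cast
    exact h
  have h2 : (2 : ℚ) ^ m = 1 := by exact_mod_cast h1
  have h3 : (2 : ℚ) ^ m = 2 ^ (0 : ℤ) := by rw [h2, zpow_zero]
  exact zpow_right_injective₀ (by norm_num) (by norm_num) h3

theorem prod_zp {ι : Type*} (s : Finset ι) (f : ι → ℤ) {x : K} (hx : x ≠ 0) :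
    ∏ i ∈ s, x ^ f i = x ^ ∑ i ∈ s, f i := by
  classical
  induction s using Finset.induction_on with
  | empty => simp
  | insert a s ha ih => rw [Finset.prod_insert ha, Finset.sum_insert ha, zpow_add₀ hx, ih]

/-- a generic diagonal matrix is a commutator -/
theorem exists_comm [CharZero K] {d : ℕ} (hd : 0 < d) (hdn : d < Fintype.card n) : ∃ (a b : Matrix n n K) (t : n → K),
    a.det = 1 ∧ b.det = 1 ∧ a * b = Matrix.diagonal t * b * a ∧ ∀ x : Fin d → n, ∏ i, t (x i) ≠ 1 := by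
  obtain ⟨N, hN⟩ : ∃ N, Fintype.card n = N + 1 := ⟨Fintype.card n - 1, by omega⟩
  have e : n ≃ Fin (N + 1) := Fintype.equivFinOfCardEq hN
  set σ : Equiv.Perm n := (e.trans (finRotate (N + 1))).trans e.symm with hσ
  have hσe : ∀ i, e (σ i) = finRotate (N + 1) (e i) := fun i => by simp [hσ]
  set E : n → ℤ := fun i => (N + 1) * N - 2 * (N + 1) * ((e i : ℕ) : ℤ) with hE
  have hEd : ∀ i, E i - E (σ i) = 2 * ((N:ℤ) + 1) - (if e i = Fin.last N then 2 * ((N:ℤ) + 1) ^ 2 else 0) := by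
    intro i
    simp only [hE, hσe]
    by_cases h : e i = Fin.last N
    · rw [if_pos h, h, finRotate_last]
      simp
      ring
    · rw [if_neg h, coe_finRotate_of_ne_last h]
      push_cast
      ring
  have hEs : ∑ i, E i = 0 := by
    have h1 : ∑ i, E i = ∑ j : Fin (N + 1), (((N:ℤ) + 1) * N - 2 * (N + 1) * ((j : ℕ) : ℤ)) :=
      Equiv.sum_comp e (fun j : Fin (N + 1) => (((N:ℤ) + 1) * N - 2 * (N + 1) * ((j : ℕ) : ℤ)))
    have h2 : (∑ j : Fin (N + 1), ((j : ℕ) : ℤ)) * 2 = (N + 1) * N := by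
      have h3 := Finset.sum_range_id_mul_two (N + 1)
      rw [← Fin.sum_univ_eq_sum_range (fun i => i) (N + 1)] at h3
      have h4 : ((∑ j : Fin (N + 1), (j : ℕ) : ℕ) : ℤ) * 2 = ((N + 1) * (N + 1 - 1) : ℕ) := by exact_mod_cast h3
      push_cast at h4
      simpa using h4
    have h5 : ∑ j : Fin (N + 1), (((N:ℤ) + 1) * N - 2 * (N + 1) * ((j : ℕ) : ℤ)) =
        ((N:ℤ) + 1) * ((N + 1) * N) - 2 * (N + 1) * ∑ j : Fin (N + 1), ((j : ℕ) : ℤ) := by
      rw [Finset.sum_sub_distrib, Finset.mul_sum, Finset.sum_const, Finset.card_univ, Fintype.card_fin, nsmul_eq_mul]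
      push_cast
      ring
    rw [h1, h5]
    linear_combination (-((N:ℤ) + 1)) * h2
  set ε : K := ((Equiv.Perm.sign σ : ℤ) : K) with hε
  have hεε : ε * ε = 1 := by
    rw [hε, ← Int.cast_mul]
    rcases Int.units_eq_one_or (Equiv.Perm.sign σ) with h | h <;> rw [h] <;> simp
  set i0 : n := e.symm 0 with hi0
  set u : n → K := fun i => if i = i0 then ε else 1 with hu
  have hu1 : ∏ i, u i = ε := by
    rw [hu, Finset.prod_ite_eq' Finset.univ i0 (fun _ => ε), if_pos (Finset.mem_univ _)]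
  have h2 : (2 : K) ≠ 0 := two_ne_zero
  refine ⟨Matrix.diagonal fun i => (2 : K) ^ E i, (Matrix.diagonal u).submatrix σ id,
    fun i => (2 : K) ^ (E i - E (σ i)), ?_, ?_, ?_, ?_⟩
  · rw [Matrix.det_diagonal, prod_zp _ _ h2, hEs, zpow_zero]
  · rw [Matrix.det_permute, Matrix.det_diagonal, hu1]
    exact hεε
  · ext i j
    rw [Matrix.diagonal_mul, Matrix.mul_diagonal, Matrix.diagonal_mul, Matrix.submatrix_apply, id]
    by_cases h : σ i = j
    · subst h
      rw [Matrix.diagonal_apply_eq, mul_right_comm, ← zpow_add₀ h2]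
      congr 2
      ring
    · rw [Matrix.diagonal_apply_ne _ h]
      ring
  · intro x hx
    rw [prod_zp _ _ h2] at hx
    have h3 := zpow_two_eq hx
    simp only [hEd] at h3
    rw [Finset.sum_sub_distrib, Finset.sum_const, Finset.card_univ, Fintype.card_fin, ← Finset.sum_filter,
      Finset.sum_const] at h3
    simp only [nsmul_eq_mul] at h3
    set k := (Finset.univ.filter fun i => e (x i) = Fin.last N).card with hk
    have h4 : (2 * ((N:ℤ) + 1)) * ((d : ℤ) - (N + 1) * k) = 0 := by linear_combination h3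
    have h5 : (d : ℤ) = (N + 1) * k := by
      rcases mul_eq_zero.1 h4 with h | h
      · exfalso
        have : (0 : ℤ) < 2 * ((N:ℤ) + 1) := by positivity
        omega
      · linarith
    have h6 : d = (N + 1) * k := by exact_mod_cast h5
    rcases Nat.eq_zero_or_pos k with h | h
    · rw [h, mul_zero] at h6
      omega
    · have : N + 1 ≤ (N + 1) * k := Nat.le_mul_of_pos_right _ h
      omega

end Pool.Agent.Helper53.KM

namespace Pool.Agent.Helper79.KM

open Pool.Agent.Helper53.KM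

variable {K : Type} [Field K] {n : Type} [Fintype n] [DecidableEq n]
variable {Γ : Type} [Group Γ]

/-- B5 -/
theorem no_char [CharZero K] {ρ : Γ →* GL n K} {Δ : Subgroup Γ} (ψ : Δ →* Kˣ) {d : ℕ} (hd : 0 < d)
    (hdn : d < Fintype.card n)
    (hfull : ∀ M : Matrix n n K, M.det = 1 → M ∈ zcl {s | ∃ γ ∈ Δ, s = (ρ γ : Matrix n n K)})
    (h : ∀ γ : Δ, ∃ y : Fin d → K, (∀ i, (ρ γ : Matrix n n K).charpoly.IsRoot (y i)) ∧ (ψ γ : K) = ∏ i, y i) :
    False := by
  obtain ⟨a, b, t, ha, hb, hab, ht⟩ := exists_comm (K := K) hd hdn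
  have hS : ∀ s ∈ {s | ∃ γ ∈ Δ, s = (ρ γ : Matrix n n K)}, ∀ s' ∈ {s | ∃ γ ∈ Δ, s = (ρ γ : Matrix n n K)},
      Qf d s s' = 0 := by
    rintro _ ⟨γ, hγ, rfl⟩ _ ⟨δ, hδ, rfl⟩
    obtain ⟨y, hy, hy1⟩ := h (⟨γ, hγ⟩ * ⟨δ, hδ⟩ * ⟨γ, hγ⟩⁻¹ * ⟨δ, hδ⟩⁻¹)
    refine Q_comm (a' := (ρ γ⁻¹ : Matrix n n K)) (b' := (ρ δ⁻¹ : Matrix n n K)) ?_ ?_ (y := y) ?_ ?_
    · rw [← Units.val_mul, ← map_mul, mul_inv_cancel, map_one, Units.val_one]
    · rw [← Units.val_mul, ← map_mul, mul_inv_cancel, map_one, Units.val_one]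
    · intro i
      have h1 := hy i
      have h2 : (ρ ((⟨γ, hγ⟩ * ⟨δ, hδ⟩ * ⟨γ, hγ⟩⁻¹ * ⟨δ, hδ⟩⁻¹ : Δ) : Γ) : Matrix n n K) =
          (ρ γ : Matrix n n K) * (ρ δ : Matrix n n K) * (ρ γ⁻¹ : Matrix n n K) * (ρ δ⁻¹ : Matrix n n K) := by
        show ((ρ (γ * δ * γ⁻¹ * δ⁻¹) : GL n K) : Matrix n n K) = _
        rw [map_mul, map_mul, map_mul, Units.val_mul, Units.val_mul, Units.val_mul]
      rw [h2] at h1
      exact h1
    · rw [← hy1]
      have h3 : ψ (⟨γ, hγ⟩ * ⟨δ, hδ⟩ * ⟨γ, hγ⟩⁻¹ * ⟨δ, hδ⟩⁻¹) = 1 := by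
        rw [map_mul, map_mul, map_mul, map_inv, map_inv, mul_right_comm, mul_inv_cancel_right, mul_inv_cancel]
      rw [h3, Units.val_one]
  have h1 : ∀ s' ∈ {s | ∃ γ ∈ Δ, s = (ρ γ : Matrix n n K)}, Qf d a s' = 0 := fun s' hs' =>
    zcl_Q1 (fun s hs => hS s hs s' hs') (hfull a ha)
  obtain ⟨x, hx⟩ := Q_diag ha hb hab (zcl_Q2 h1 (hfull b hb))
  exact ht x hx

end Pool.Agent.Helper79.KM
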